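import Mathlib

/-!
The reverse weak win game `[K_N, K_q; -]`: a forcing player keeps forcing on larger boards.
-/

set_option autoImplicit false

namespace Pool.Agent.Results.MP_c7fbc5_co.BoardExtension

/-- The edges of `K_N`: the pairs `(i, j)` of vertices with `i < j`. -/
def edges (N : ℕ) : Finset (Fin N × Fin N) := Finset.univ.filter (fun e => e.1 < e.2)

/-- `A` contains all edges of some copy of `K_q`. -/
def HasClique {N : ℕ} (q : ℕ) (A : Finset (Fin N × Fin N)) : Prop :=
  ∃ S : Finset (Fin N), S.card = q ∧ ∀ i ∈ S, ∀ j ∈ S, i < j → (i, j) ∈ A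

/-- Strategies of the reverse weak win game, by backward induction. One of the two players is
called `P`. `k` edges are still unclaimed, `free` is the set of unclaimed edges, `opp` is the set
of edges claimed so far by the opponent of `P`; the last argument is `true` exactly when `P` is to
move. `Forces G k free opp b` says that `P` can guarantee that the final set of the opponent
satisfies `G` when play continues until every edge is claimed: if nothing is left, the set of the
opponent satisfies `G`; if `P` is to move, some move keeps the guarantee; if the opponent is to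
move, every move does. -/
def Forces {E : Type} [DecidableEq E] (G : Finset E → Prop) :
    ℕ → Finset E → Finset E → Bool → Prop
  | 0, _, opp, _ => G opp
  | k + 1, free, opp, true => ∃ e ∈ free, Forces G k (free.erase e) opp false
  | k + 1, free, opp, false => ∀ e ∈ free, Forces G k (free.erase e) (insert e opp) true

/-- In `[K_N, K_q; -]` the first player has a strategy guaranteeing that the second player's
final set of edges contains a copy of `K_q`. -/
def FirstForces (N q : ℕ) : Prop :=
  Forces (HasClique (N := N) q) (edges N).card (edges N) ∅ true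

/-- In `[K_N, K_q; -]` the second player has a strategy guaranteeing that the first player's
final set of edges contains a copy of `K_q`. -/
def SecondForces (N q : ℕ) : Prop :=
  Forces (HasClique (N := N) q) (edges N).card (edges N) ∅ false

/-- `n` is admissible for `q`: for every `N ≥ n` (with `N > q`) one of the two players has such a
strategy. The reverse weak win number `ww(K_q; -)` is the least admissible `n`. -/
def Admissible (q n : ℕ) : Prop := ∀ N : ℕ, n ≤ N → q < N → FirstForces N q ∨ SecondForces N q

section general

variable {E : Type} [DecidableEq E] {G : Finset E → Prop}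

theorem forces_of (hG : ∀ A B : Finset E, A ⊆ B → G A → G B) :
    ∀ (k : ℕ) (free opp : Finset E) (b : Bool), free.card = k → G opp → Forces G k free opp b := by
  intro k
  induction k with
  | zero => intro free opp b _ h; simpa [Forces] using h
  | succ k ih =>
    intro free opp b hc h
    cases b with
    | true =>
      have hne : free.Nonempty := Finset.card_pos.mp (by omega)
      obtain ⟨e, he⟩ := hne
      refine ⟨e, he, ih _ _ _ ?_ h⟩
      rw [Finset.card_erase_of_mem he]; omega
    | false =>
      intro e he
      refine ih _ _ _ ?_ (hG _ _ (Finset.subset_insert e opp) h)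
      rw [Finset.card_erase_of_mem he]; omega

/-- The pairing argument: an even set `X` of additional edges does not change who can force. -/
theorem add_even (hG : ∀ A B : Finset E, A ⊆ B → G A → G B) :
    ∀ (n k x : ℕ), k + x = n → Even x → ∀ (free X opp opp' : Finset E) (b : Bool),
      Disjoint free X → free.card = k → X.card = x → opp ⊆ opp' → Forces G k free opp b →
      Forces G n (free ∪ X) opp' b := by
  intro n
  induction n using Nat.strong_induction_on with
  | _ n ih =>
    intro k x hn hx free X opp opp' b hd hf hX ho h
    have hcard : (free ∪ X).card = n := by rw [Finset.card_union_of_disjoint hd]; omega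
    rcases Nat.eq_zero_or_pos k with hk | hk
    · subst hk
      refine forces_of hG n _ _ _ hcard (hG _ _ ho ?_)
      simpa [Forces] using h
    obtain ⟨k', rfl⟩ : ∃ k', k = k' + 1 := ⟨k - 1, by omega⟩
    obtain ⟨n', rfl⟩ : ∃ n', n = n' + 1 := ⟨n - 1, by omega⟩
    cases b with
    | true =>
      obtain ⟨e, he, h⟩ := h
      refine ⟨e, Finset.mem_union_left _ he, ?_⟩
      have heX : e ∉ X := fun hh => (Finset.disjoint_left.mp hd) he hh
      have : (free ∪ X).erase e = free.erase e ∪ X := by
        rw [Finset.erase_union_distrib, Finset.erase_eq_of_notMem heX]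
      rw [this]
      refine ih n' (by omega) k' x (by omega) hx (free.erase e) X opp opp' false ?_ ?_ hX ho h
      · exact Finset.disjoint_of_subset_left (Finset.erase_subset _ _) hd
      · rw [Finset.card_erase_of_mem he]; omega
    | false =>
      intro e he
      rw [Finset.mem_union] at he
      rcases he with he | he
      · have heX : e ∉ X := fun hh => (Finset.disjoint_left.mp hd) he hh
        have : (free ∪ X).erase e = free.erase e ∪ X := by
          rw [Finset.erase_union_distrib, Finset.erase_eq_of_notMem heX]
        rw [this]
        refine ih n' (by omega) k' x (by omega) hx (free.erase e) X (insert e opp)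
          (insert e opp') true ?_ ?_ hX (Finset.insert_subset_insert _ ho) (h e he)
        · exact Finset.disjoint_of_subset_left (Finset.erase_subset _ _) hd
        · rw [Finset.card_erase_of_mem he]; omega
      · have hef : e ∉ free := fun hh => (Finset.disjoint_left.mp hd) hh he
        have h1 : (free ∪ X).erase e = free ∪ X.erase e := by
          rw [Finset.erase_union_distrib, Finset.erase_eq_of_notMem hef]
        have hx1 : (X.erase e).card = x - 1 := by rw [Finset.card_erase_of_mem he, hX]
        have hxpos : 0 < x := by rw [← hX]; exact Finset.card_pos.mpr ⟨e, he⟩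
        obtain ⟨r, hr⟩ := hx
        have hne : (X.erase e).Nonempty := Finset.card_pos.mp (by omega)
        obtain ⟨e', he'⟩ := hne
        have he'X : e' ∈ X := Finset.mem_of_mem_erase he'
        have hef' : e' ∉ free := fun hh => (Finset.disjoint_left.mp hd) hh he'X
        obtain ⟨n'', rfl⟩ : ∃ n'', n' = n'' + 1 := ⟨n' - 1, by omega⟩
        rw [h1]
        refine ⟨e', Finset.mem_union_right _ he', ?_⟩
        have h2 : (free ∪ X.erase e).erase e' = free ∪ (X.erase e).erase e' := by
          rw [Finset.erase_union_distrib, Finset.erase_eq_of_notMem hef']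
        rw [h2]
        refine ih n'' (by omega) (k' + 1) (x - 2) (by omega) ⟨r - 1, by omega⟩ free
          ((X.erase e).erase e') opp (insert e opp') false ?_ hf ?_
          (ho.trans (Finset.subset_insert _ _)) h
        · exact Finset.disjoint_of_subset_right
            ((Finset.erase_subset _ _).trans (Finset.erase_subset _ _)) hd
        · rw [Finset.card_erase_of_mem he', hx1]; omega

/-- Transport of a forcing strategy along an injection of boards. -/
theorem transport {F : Type} [DecidableEq F] (f : E ↪ F) (G' : Finset F → Prop)
    (hGG : ∀ A : Finset E, G A → G' (A.map f)) :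
    ∀ (k : ℕ) (free opp : Finset E) (b : Bool), Forces G k free opp b →
      Forces G' k (free.map f) (opp.map f) b := by
  intro k
  induction k with
  | zero => intro free opp b h; exact hGG _ h
  | succ k ih =>
    intro free opp b h
    cases b with
    | true =>
      obtain ⟨e, he, h⟩ := h
      refine ⟨f e, Finset.mem_map_of_mem f he, ?_⟩
      have := ih _ _ _ h
      rwa [Finset.map_erase] at this
    | false =>
      intro e' he'
      obtain ⟨e, he, rfl⟩ := Finset.mem_map.mp he'
      have := ih _ _ _ (h e he)
      rwa [Finset.map_erase, Finset.map_insert] at this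

end general

theorem hasClique_mono {N : ℕ} (q : ℕ) (A B : Finset (Fin N × Fin N)) (h : A ⊆ B)
    (hA : HasClique q A) : HasClique q B := by
  obtain ⟨S, hS, hS'⟩ := hA
  exact ⟨S, hS, fun i hi j hj hij => h (hS' i hi j hj hij)⟩

/-- The inclusion of the board `K_N` in the board `K_N'`. -/
def inc {N N' : ℕ} (h : N ≤ N') : (Fin N × Fin N) ↪ (Fin N' × Fin N') :=
  (Fin.castLEEmb h).prodMap (Fin.castLEEmb h)

theorem hasClique_inc {N N' : ℕ} (h : N ≤ N') (q : ℕ) (A : Finset (Fin N × Fin N))
    (hA : HasClique q A) : HasClique q (A.map (inc h)) := by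
  obtain ⟨S, hS, hS'⟩ := hA
  refine ⟨S.map (Fin.castLEEmb h), by rw [Finset.card_map, hS], ?_⟩
  intro i hi j hj hij
  obtain ⟨a, ha, rfl⟩ := Finset.mem_map.mp hi
  obtain ⟨b, hb, rfl⟩ := Finset.mem_map.mp hj
  have hab : a < b := by simpa using hij
  exact Finset.mem_map.mpr ⟨(a, b), hS' a ha b hb hab, rfl⟩

theorem edges_inc {N N' : ℕ} (h : N ≤ N') : (edges N).map (inc h) ⊆ edges N' := by
  intro e he
  obtain ⟨⟨i, j⟩, he, rfl⟩ := Finset.mem_map.mp he
  simp only [edges, Finset.mem_filter, Finset.mem_univ, true_and] at he ⊢
  simpa [inc] using he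

theorem card_edges (N : ℕ) : (edges N).card = N.choose 2 := by
  have h1 : (edges N).card + (edges N).card = N * N - N := by
    have hoff := Finset.offDiag_card (Finset.univ : Finset (Fin N))
    rw [Finset.card_univ, Fintype.card_fin] at hoff
    rw [← hoff]
    have h2 : (edges N).card = ((edges N).map (Equiv.prodComm (Fin N) (Fin N)).toEmbedding).card :=
      (Finset.card_map _).symm
    conv_lhs => rw [h2]
    rw [← h2]
    nth_rewrite 2 [h2]
    rw [← Finset.card_union_of_disjoint]
    · congr 1
      ext ⟨i, j⟩
      simp only [edges, Finset.mem_union, Finset.mem_filter, Finset.mem_univ, true_and,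
        Finset.mem_map, Equiv.coe_toEmbedding, Finset.mem_offDiag]
      constructor
      · rintro (h | ⟨⟨a, b⟩, hab, h⟩)
        · exact h.ne
        · simp only [Equiv.prodComm_apply, Prod.swap_prod_mk, Prod.mk.injEq] at h hab
          obtain ⟨rfl, rfl⟩ := h
          exact hab.ne'
      · intro h
        rcases lt_or_gt_of_ne h with h | h
        · exact Or.inl h
        · exact Or.inr ⟨(j, i), h, rfl⟩
    · rw [Finset.disjoint_left]
      rintro ⟨i, j⟩ h h'
      simp only [edges, Finset.mem_filter, Finset.mem_univ, true_and,
        Finset.mem_map, Equiv.coe_toEmbedding] at h h'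
      obtain ⟨⟨a, b⟩, hab, h'⟩ := h'
      simp only [Equiv.prodComm_apply, Prod.swap_prod_mk, Prod.mk.injEq] at h' hab
      obtain ⟨rfl, rfl⟩ := h'
      exact absurd h (not_lt.mpr hab.le)
  rw [Nat.choose_two_right]
  have h3 : N * (N - 1) = N * N - N := by rw [Nat.mul_sub, Nat.mul_one]
  omega

theorem extend (q N N' : ℕ) (h : N ≤ N') :
    (Even (N'.choose 2 - N.choose 2) → FirstForces N q → FirstForces N' q) ∧
    (Even (N'.choose 2 - N.choose 2) → SecondForces N q → SecondForces N' q) ∧
    (¬ Even (N'.choose 2 - N.choose 2) → SecondForces N q → FirstForces N' q) := by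
  have hsub := edges_inc h
  have hmono := hasClique_mono (N := N') q
  set X : Finset (Fin N' × Fin N') := edges N' \ (edges N).map (inc h) with hXdef
  have hXc : X.card = N'.choose 2 - N.choose 2 := by
    rw [hXdef, Finset.card_sdiff_of_subset hsub, Finset.card_map, card_edges, card_edges]
  have hU : (edges N).map (inc h) ∪ X = edges N' := Finset.union_sdiff_of_subset hsub
  have hd : Disjoint ((edges N).map (inc h)) X := Finset.disjoint_sdiff
  have hle : N.choose 2 ≤ N'.choose 2 := Nat.choose_le_choose 2 h
  have tr : ∀ b, Forces (HasClique (N := N) q) (edges N).card (edges N) ∅ b →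
      Forces (HasClique (N := N') q) (edges N).card ((edges N).map (inc h)) ∅ b := by
    intro b hb
    have := transport (inc h) (HasClique (N := N') q) (fun A => hasClique_inc h q A) _ _ _ _ hb
    simpa using this
  have key : Even (N'.choose 2 - N.choose 2) → ∀ b,
      Forces (HasClique (N := N) q) (edges N).card (edges N) ∅ b →
      Forces (HasClique (N := N') q) (edges N').card (edges N') ∅ b := by
    intro hev b hb
    have := add_even hmono (edges N').card (edges N).card (N'.choose 2 - N.choose 2)
      (by rw [card_edges, card_edges]; omega) hev ((edges N).map (inc h)) X ∅ ∅ b hd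
      (Finset.card_map _) hXc (Finset.Subset.refl _) (tr b hb)
    rwa [hU] at this
  refine ⟨fun hev => key hev true, fun hev => key hev false, ?_⟩
  intro hodd hS
  have hpos : 0 < X.card := by
    rw [hXc]
    rcases Nat.eq_zero_or_pos (N'.choose 2 - N.choose 2) with h0 | h0
    · exact absurd (by rw [h0]; exact ⟨0, rfl⟩) hodd
    · exact h0
  obtain ⟨e, he⟩ := Finset.card_pos.mp hpos
  have hen : e ∉ (edges N).map (inc h) := fun hh => (Finset.disjoint_left.mp hd) hh he
  have heE : e ∈ edges N' := by rw [← hU]; exact Finset.mem_union_right _ he
  have hc : (edges N').card = ((edges N').card - 1) + 1 := by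
    have := Finset.card_pos.mpr ⟨e, heE⟩; omega
  unfold FirstForces
  rw [hc]
  refine ⟨e, heE, ?_⟩
  have hE : (edges N').erase e = (edges N).map (inc h) ∪ X.erase e := by
    rw [← hU, Finset.erase_union_distrib, Finset.erase_eq_of_notMem hen]
  rw [hE]
  have hev : Even (N'.choose 2 - N.choose 2 - 1) := by
    rw [Nat.not_even_iff_odd] at hodd
    obtain ⟨r, hr⟩ := hodd
    exact ⟨r, by omega⟩
  refine add_even hmono ((edges N').card - 1) (edges N).card (N'.choose 2 - N.choose 2 - 1) ?_ hev
    ((edges N).map (inc h)) (X.erase e) ∅ ∅ false ?_ (Finset.card_map _) ?_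
    (Finset.Subset.refl _) (tr false hS)
  · rw [card_edges, card_edges]
    rw [hXc] at hpos
    omega
  · exact Finset.disjoint_of_subset_right (Finset.erase_subset _ _) hd
  · rw [Finset.card_erase_of_mem he, hXc]

theorem choose_two_succ (N : ℕ) : (N + 1).choose 2 = N.choose 2 + N := by
  rw [Nat.choose_succ_succ' N 1, Nat.choose_one_right, Nat.add_comm]

/-- Among three consecutive boards `K_n, K_{n+1}, K_{n+2}` both parities of the number of edges
occur. -/
theorem exists_same_parity (n N : ℕ) (h : n + 2 ≤ N) :
    ∃ M, n ≤ M ∧ M ≤ n + 2 ∧ M ≤ N ∧ Even (N.choose 2 - M.choose 2) := by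
  have h1 := choose_two_succ n
  have h2 := choose_two_succ (n + 1)
  have l0 : n.choose 2 ≤ N.choose 2 := Nat.choose_le_choose 2 (by omega)
  have l1 : (n + 1).choose 2 ≤ N.choose 2 := Nat.choose_le_choose 2 (by omega)
  have l2 : (n + 1 + 1).choose 2 ≤ N.choose 2 := Nat.choose_le_choose 2 (by omega)
  rcases Nat.even_or_odd (N.choose 2 - n.choose 2) with h0 | ⟨r, hr⟩
  · exact ⟨n, le_refl _, by omega, by omega, h0⟩
  · rcases Nat.even_or_odd n with ⟨s, hs⟩ | ⟨s, hs⟩
    · refine ⟨n + 2, by omega, le_refl _, h, ?_⟩
      rw [show n + 2 = n + 1 + 1 from rfl]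
      exact ⟨(N.choose 2 - (n + 1 + 1).choose 2) / 2, by omega⟩
    · refine ⟨n + 1, by omega, by omega, by omega, ?_⟩
      exact ⟨(N.choose 2 - (n + 1).choose 2) / 2, by omega⟩

/-- **Board extension.** A player who can force on `K_N` can force, in the same seat, on every
larger `K_N'` whose number of edges has the same parity; if the parity is different, a second
player who can force on `K_N` can force as the first player on `K_N'`. Hence `ww(K_q; -) ≤ N` as
soon as the second player can force on `K_N`, and `n > q` is admissible exactly when one of the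
players can force on each of the three boards `K_n`, `K_{n+1}`, `K_{n+2}`. -/
theorem result (q : ℕ) :
    (∀ N N' : ℕ, N ≤ N' →
      (Even (N'.choose 2 - N.choose 2) → FirstForces N q → FirstForces N' q) ∧
      (Even (N'.choose 2 - N.choose 2) → SecondForces N q → SecondForces N' q) ∧
      (¬ Even (N'.choose 2 - N.choose 2) → SecondForces N q → FirstForces N' q)) ∧
    (∀ N : ℕ, SecondForces N q → Admissible q N) ∧
    (∀ n : ℕ, q < n → (Admissible q n ↔
      ∀ N : ℕ, n ≤ N → N ≤ n + 2 → FirstForces N q ∨ SecondForces N q)) := by
  refine ⟨fun N N' h => extend q N N' h, ?_, ?_⟩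
  · intro N hS N' hN _
    by_cases hev : Even (N'.choose 2 - N.choose 2)
    · exact Or.inr ((extend q N N' hN).2.1 hev hS)
    · exact Or.inl ((extend q N N' hN).2.2 hev hS)
  · intro n hq
    constructor
    · intro hA N h1 _
      exact hA N h1 (by omega)
    · intro hA N h1 _
      rcases Nat.lt_or_ge N (n + 2) with hlt | hge
      · exact hA N h1 (by omega)
      · obtain ⟨M, hM1, hM2, hM3, hM4⟩ := exists_same_parity n N hge
        rcases hA M hM1 hM2 with h | h
        · exact Or.inl ((extend q M N hM3).1 hM4 h)
        · exact Or.inr ((extend q M N hM3).2.1 hM4 h)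

end Pool.Agent.Results.MP_c7fbc5_co.BoardExtension
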