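import Mathlib

/-!
The reverse weak win game on `K_N` for the triangle: each of the two players can force for every
`N ≥ 5`, and `ww(K_3; -) = 5`.
-/

set_option autoImplicit false

namespace Pool.Agent.Results.MP_c7fbc5_co.TriangleOutcomes

/-- The edges of `K_N`: the pairs `(i, j)` of vertices with `i < j`. -/
def edges (N : ℕ) : Finset (Fin N × Fin N) := Finset.univ.filter (fun e => e.1 < e.2)

/-- `A` contains all edges of some copy of `K_q`. -/
def HasClique {N : ℕ} (q : ℕ) (A : Finset (Fin N × Fin N)) : Prop :=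
  ∃ S : Finset (Fin N), S.card = q ∧ ∀ i ∈ S, ∀ j ∈ S, i < j → (i, j) ∈ A

/-- Strategies of the reverse weak win game, by backward induction. One of the two players is
called `P`. `k` edges are still unclaimed, `free` is the set of unclaimed edges, `opp` is the set
of edges claimed so far by the opponent of `P`; the last argument is `true` exactly when `P` is to
move. `Forces G k free opp b` says that `P` can guarantee that the final set of the opponent
satisfies `G` when play continues until every edge is claimed: if nothing is left, the set of the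
opponent satisfies `G`; if `P` is to move, some move keeps the guarantee; if the opponent is to
move, every move does. -/
def Forces {E : Type} [DecidableEq E] (G : Finset E → Prop) :
    ℕ → Finset E → Finset E → Bool → Prop
  | 0, _, opp, _ => G opp
  | k + 1, free, opp, true => ∃ e ∈ free, Forces G k (free.erase e) opp false
  | k + 1, free, opp, false => ∀ e ∈ free, Forces G k (free.erase e) (insert e opp) true

/-- In `[K_N, K_q; -]` the first player has a strategy guaranteeing that the second player's
final set of edges contains a copy of `K_q`. -/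
def FirstForces (N q : ℕ) : Prop :=
  Forces (HasClique (N := N) q) (edges N).card (edges N) ∅ true

/-- In `[K_N, K_q; -]` the second player has a strategy guaranteeing that the first player's
final set of edges contains a copy of `K_q`. -/
def SecondForces (N q : ℕ) : Prop :=
  Forces (HasClique (N := N) q) (edges N).card (edges N) ∅ false

/-- `n` is admissible for `q`: for every `N ≥ n` (with `N > q`) one of the two players has such a
strategy. The reverse weak win number `ww(K_q; -)` is the least admissible `n`. -/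
def Admissible (q n : ℕ) : Prop := ∀ N : ℕ, n ≤ N → q < N → FirstForces N q ∨ SecondForces N q

section general

variable {E : Type} [DecidableEq E] {G : Finset E → Prop}

theorem forces_of (hG : ∀ A B : Finset E, A ⊆ B → G A → G B) :
    ∀ (k : ℕ) (free opp : Finset E) (b : Bool), free.card = k → G opp → Forces G k free opp b := by
  intro k
  induction k with
  | zero => intro free opp b _ h; simpa [Forces] using h
  | succ k ih =>
    intro free opp b hc h
    cases b with
    | true =>
      have hne : free.Nonempty := Finset.card_pos.mp (by omega)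
      obtain ⟨e, he⟩ := hne
      refine ⟨e, he, ih _ _ _ ?_ h⟩
      rw [Finset.card_erase_of_mem he]; omega
    | false =>
      intro e he
      refine ih _ _ _ ?_ (hG _ _ (Finset.subset_insert e opp) h)
      rw [Finset.card_erase_of_mem he]; omega

/-- The pairing argument: an even set `X` of additional edges does not change who can force. -/
theorem add_even (hG : ∀ A B : Finset E, A ⊆ B → G A → G B) :
    ∀ (n k x : ℕ), k + x = n → Even x → ∀ (free X opp opp' : Finset E) (b : Bool),
      Disjoint free X → free.card = k → X.card = x → opp ⊆ opp' → Forces G k free opp b →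
      Forces G n (free ∪ X) opp' b := by
  intro n
  induction n using Nat.strong_induction_on with
  | _ n ih =>
    intro k x hn hx free X opp opp' b hd hf hX ho h
    have hcard : (free ∪ X).card = n := by rw [Finset.card_union_of_disjoint hd]; omega
    rcases Nat.eq_zero_or_pos k with hk | hk
    · subst hk
      refine forces_of hG n _ _ _ hcard (hG _ _ ho ?_)
      simpa [Forces] using h
    obtain ⟨k', rfl⟩ : ∃ k', k = k' + 1 := ⟨k - 1, by omega⟩
    obtain ⟨n', rfl⟩ : ∃ n', n = n' + 1 := ⟨n - 1, by omega⟩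
    cases b with
    | true =>
      obtain ⟨e, he, h⟩ := h
      refine ⟨e, Finset.mem_union_left _ he, ?_⟩
      have heX : e ∉ X := fun hh => (Finset.disjoint_left.mp hd) he hh
      have : (free ∪ X).erase e = free.erase e ∪ X := by
        rw [Finset.erase_union_distrib, Finset.erase_eq_of_notMem heX]
      rw [this]
      refine ih n' (by omega) k' x (by omega) hx (free.erase e) X opp opp' false ?_ ?_ hX ho h
      · exact Finset.disjoint_of_subset_left (Finset.erase_subset _ _) hd
      · rw [Finset.card_erase_of_mem he]; omega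
    | false =>
      intro e he
      rw [Finset.mem_union] at he
      rcases he with he | he
      · have heX : e ∉ X := fun hh => (Finset.disjoint_left.mp hd) he hh
        have : (free ∪ X).erase e = free.erase e ∪ X := by
          rw [Finset.erase_union_distrib, Finset.erase_eq_of_notMem heX]
        rw [this]
        refine ih n' (by omega) k' x (by omega) hx (free.erase e) X (insert e opp)
          (insert e opp') true ?_ ?_ hX (Finset.insert_subset_insert _ ho) (h e he)
        · exact Finset.disjoint_of_subset_left (Finset.erase_subset _ _) hd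
        · rw [Finset.card_erase_of_mem he]; omega
      · have hef : e ∉ free := fun hh => (Finset.disjoint_left.mp hd) hh he
        have h1 : (free ∪ X).erase e = free ∪ X.erase e := by
          rw [Finset.erase_union_distrib, Finset.erase_eq_of_notMem hef]
        have hx1 : (X.erase e).card = x - 1 := by rw [Finset.card_erase_of_mem he, hX]
        have hxpos : 0 < x := by rw [← hX]; exact Finset.card_pos.mpr ⟨e, he⟩
        obtain ⟨r, hr⟩ := hx
        have hne : (X.erase e).Nonempty := Finset.card_pos.mp (by omega)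
        obtain ⟨e', he'⟩ := hne
        have he'X : e' ∈ X := Finset.mem_of_mem_erase he'
        have hef' : e' ∉ free := fun hh => (Finset.disjoint_left.mp hd) hh he'X
        obtain ⟨n'', rfl⟩ : ∃ n'', n' = n'' + 1 := ⟨n' - 1, by omega⟩
        rw [h1]
        refine ⟨e', Finset.mem_union_right _ he', ?_⟩
        have h2 : (free ∪ X.erase e).erase e' = free ∪ (X.erase e).erase e' := by
          rw [Finset.erase_union_distrib, Finset.erase_eq_of_notMem hef']
        rw [h2]
        refine ih n'' (by omega) (k' + 1) (x - 2) (by omega) ⟨r - 1, by omega⟩ free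
          ((X.erase e).erase e') opp (insert e opp') false ?_ hf ?_
          (ho.trans (Finset.subset_insert _ _)) h
        · exact Finset.disjoint_of_subset_right
            ((Finset.erase_subset _ _).trans (Finset.erase_subset _ _)) hd
        · rw [Finset.card_erase_of_mem he', hx1]; omega

/-- Transport of a forcing strategy along an injection of boards. -/
theorem transport {F : Type} [DecidableEq F] (f : E ↪ F) (G' : Finset F → Prop)
    (hGG : ∀ A : Finset E, G A → G' (A.map f)) :
    ∀ (k : ℕ) (free opp : Finset E) (b : Bool), Forces G k free opp b →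
      Forces G' k (free.map f) (opp.map f) b := by
  intro k
  induction k with
  | zero => intro free opp b h; exact hGG _ h
  | succ k ih =>
    intro free opp b h
    cases b with
    | true =>
      obtain ⟨e, he, h⟩ := h
      refine ⟨f e, Finset.mem_map_of_mem f he, ?_⟩
      have := ih _ _ _ h
      rwa [Finset.map_erase] at this
    | false =>
      intro e' he'
      obtain ⟨e, he, rfl⟩ := Finset.mem_map.mp he'
      have := ih _ _ _ (h e he)
      rwa [Finset.map_erase, Finset.map_insert] at this

/-- Boolean evaluation with early stopping. -/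
def ev (t : Finset E → Bool) : ℕ → Finset E → Finset E → Bool → Bool
  | 0, _, opp, _ => t opp
  | k + 1, free, opp, true =>
      t opp || decide (∃ e ∈ free, ev t k (free.erase e) opp false = true)
  | k + 1, free, opp, false =>
      t opp || decide (∀ e ∈ free, ev t k (free.erase e) (insert e opp) true = true)

theorem ev_iff (hG : ∀ A B : Finset E, A ⊆ B → G A → G B) (t : Finset E → Bool)
    (ht : ∀ A, t A = true ↔ G A) :
    ∀ (k : ℕ) (free opp : Finset E) (b : Bool), free.card = k →
      (ev t k free opp b = true ↔ Forces G k free opp b) := by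
  intro k
  induction k with
  | zero => intro free opp b _; simpa [Forces, ev] using ht opp
  | succ k ih =>
    intro free opp b hc
    cases b with
    | true =>
      simp only [ev, Bool.or_eq_true, decide_eq_true_eq, Forces]
      constructor
      · rintro (h | ⟨e, he, h⟩)
        · exact forces_of hG (k + 1) free opp true hc ((ht _).1 h)
        · exact ⟨e, he, (ih _ _ _ (by rw [Finset.card_erase_of_mem he]; omega)).1 h⟩
      · rintro ⟨e, he, h⟩
        exact Or.inr ⟨e, he, (ih _ _ _ (by rw [Finset.card_erase_of_mem he]; omega)).2 h⟩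
    | false =>
      simp only [ev, Bool.or_eq_true, decide_eq_true_eq, Forces]
      constructor
      · rintro (h | h)
        · exact forces_of hG (k + 1) free opp false hc ((ht _).1 h)
        · intro e he
          exact (ih _ _ _ (by rw [Finset.card_erase_of_mem he]; omega)).1 (h e he)
      · intro h
        exact Or.inr fun e he =>
          (ih _ _ _ (by rw [Finset.card_erase_of_mem he]; omega)).2 (h e he)

end general

theorem hasClique_mono {N : ℕ} (q : ℕ) (A B : Finset (Fin N × Fin N)) (h : A ⊆ B)
    (hA : HasClique q A) : HasClique q B := by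
  obtain ⟨S, hS, hS'⟩ := hA
  exact ⟨S, hS, fun i hi j hj hij => h (hS' i hi j hj hij)⟩

/-- The inclusion of the board `K_N` in the board `K_N'`. -/
def inc {N N' : ℕ} (h : N ≤ N') : (Fin N × Fin N) ↪ (Fin N' × Fin N') :=
  (Fin.castLEEmb h).prodMap (Fin.castLEEmb h)

theorem hasClique_inc {N N' : ℕ} (h : N ≤ N') (q : ℕ) (A : Finset (Fin N × Fin N))
    (hA : HasClique q A) : HasClique q (A.map (inc h)) := by
  obtain ⟨S, hS, hS'⟩ := hA
  refine ⟨S.map (Fin.castLEEmb h), by rw [Finset.card_map, hS], ?_⟩
  intro i hi j hj hij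
  obtain ⟨a, ha, rfl⟩ := Finset.mem_map.mp hi
  obtain ⟨b, hb, rfl⟩ := Finset.mem_map.mp hj
  have hab : a < b := by simpa using hij
  exact Finset.mem_map.mpr ⟨(a, b), hS' a ha b hb hab, rfl⟩

theorem edges_inc {N N' : ℕ} (h : N ≤ N') : (edges N).map (inc h) ⊆ edges N' := by
  intro e he
  obtain ⟨⟨i, j⟩, he, rfl⟩ := Finset.mem_map.mp he
  simp only [edges, Finset.mem_filter, Finset.mem_univ, true_and] at he ⊢
  simpa [inc] using he

theorem card_edges (N : ℕ) : (edges N).card = N.choose 2 := by
  have h1 : (edges N).card + (edges N).card = N * N - N := by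
    have hoff := Finset.offDiag_card (Finset.univ : Finset (Fin N))
    rw [Finset.card_univ, Fintype.card_fin] at hoff
    rw [← hoff]
    have h2 : (edges N).card = ((edges N).map (Equiv.prodComm (Fin N) (Fin N)).toEmbedding).card :=
      (Finset.card_map _).symm
    conv_lhs => rw [h2]
    rw [← h2]
    nth_rewrite 2 [h2]
    rw [← Finset.card_union_of_disjoint]
    · congr 1
      ext ⟨i, j⟩
      simp only [edges, Finset.mem_union, Finset.mem_filter, Finset.mem_univ, true_and,
        Finset.mem_map, Equiv.coe_toEmbedding, Finset.mem_offDiag]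
      constructor
      · rintro (h | ⟨⟨a, b⟩, hab, h⟩)
        · exact h.ne
        · simp only [Equiv.prodComm_apply, Prod.swap_prod_mk, Prod.mk.injEq] at h hab
          obtain ⟨rfl, rfl⟩ := h
          exact hab.ne'
      · intro h
        rcases lt_or_gt_of_ne h with h | h
        · exact Or.inl h
        · exact Or.inr ⟨(j, i), h, rfl⟩
    · rw [Finset.disjoint_left]
      rintro ⟨i, j⟩ h h'
      simp only [edges, Finset.mem_filter, Finset.mem_univ, true_and,
        Finset.mem_map, Equiv.coe_toEmbedding] at h h'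
      obtain ⟨⟨a, b⟩, hab, h'⟩ := h'
      simp only [Equiv.prodComm_apply, Prod.swap_prod_mk, Prod.mk.injEq] at h' hab
      obtain ⟨rfl, rfl⟩ := h'
      exact absurd h (not_lt.mpr hab.le)
  rw [Nat.choose_two_right]
  have h3 : N * (N - 1) = N * N - N := by rw [Nat.mul_sub, Nat.mul_one]
  omega

theorem extend (q N N' : ℕ) (h : N ≤ N') :
    (Even (N'.choose 2 - N.choose 2) → FirstForces N q → FirstForces N' q) ∧
    (Even (N'.choose 2 - N.choose 2) → SecondForces N q → SecondForces N' q) ∧
    (¬ Even (N'.choose 2 - N.choose 2) → SecondForces N q → FirstForces N' q) := by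
  have hsub := edges_inc h
  have hmono := hasClique_mono (N := N') q
  set X : Finset (Fin N' × Fin N') := edges N' \ (edges N).map (inc h) with hXdef
  have hXc : X.card = N'.choose 2 - N.choose 2 := by
    rw [hXdef, Finset.card_sdiff_of_subset hsub, Finset.card_map, card_edges, card_edges]
  have hU : (edges N).map (inc h) ∪ X = edges N' := Finset.union_sdiff_of_subset hsub
  have hd : Disjoint ((edges N).map (inc h)) X := Finset.disjoint_sdiff
  have hle : N.choose 2 ≤ N'.choose 2 := Nat.choose_le_choose 2 h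
  have tr : ∀ b, Forces (HasClique (N := N) q) (edges N).card (edges N) ∅ b →
      Forces (HasClique (N := N') q) (edges N).card ((edges N).map (inc h)) ∅ b := by
    intro b hb
    have := transport (inc h) (HasClique (N := N') q) (fun A => hasClique_inc h q A) _ _ _ _ hb
    simpa using this
  have key : Even (N'.choose 2 - N.choose 2) → ∀ b,
      Forces (HasClique (N := N) q) (edges N).card (edges N) ∅ b →
      Forces (HasClique (N := N') q) (edges N').card (edges N') ∅ b := by
    intro hev b hb
    have := add_even hmono (edges N').card (edges N).card (N'.choose 2 - N.choose 2)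
      (by rw [card_edges, card_edges]; omega) hev ((edges N).map (inc h)) X ∅ ∅ b hd
      (Finset.card_map _) hXc (Finset.Subset.refl _) (tr b hb)
    rwa [hU] at this
  refine ⟨fun hev => key hev true, fun hev => key hev false, ?_⟩
  intro hodd hS
  have hpos : 0 < X.card := by
    rw [hXc]
    rcases Nat.eq_zero_or_pos (N'.choose 2 - N.choose 2) with h0 | h0
    · exact absurd (by rw [h0]; exact ⟨0, rfl⟩) hodd
    · exact h0
  obtain ⟨e, he⟩ := Finset.card_pos.mp hpos
  have hen : e ∉ (edges N).map (inc h) := fun hh => (Finset.disjoint_left.mp hd) hh he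
  have heE : e ∈ edges N' := by rw [← hU]; exact Finset.mem_union_right _ he
  have hc : (edges N').card = ((edges N').card - 1) + 1 := by
    have := Finset.card_pos.mpr ⟨e, heE⟩; omega
  unfold FirstForces
  rw [hc]
  refine ⟨e, heE, ?_⟩
  have hE : (edges N').erase e = (edges N).map (inc h) ∪ X.erase e := by
    rw [← hU, Finset.erase_union_distrib, Finset.erase_eq_of_notMem hen]
  rw [hE]
  have hev : Even (N'.choose 2 - N.choose 2 - 1) := by
    rw [Nat.not_even_iff_odd] at hodd
    obtain ⟨r, hr⟩ := hodd
    exact ⟨r, by omega⟩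
  refine add_even hmono ((edges N').card - 1) (edges N).card (N'.choose 2 - N.choose 2 - 1) ?_ hev
    ((edges N).map (inc h)) (X.erase e) ∅ ∅ false ?_ (Finset.card_map _) ?_
    (Finset.Subset.refl _) (tr false hS)
  · rw [card_edges, card_edges]
    rw [hXc] at hpos
    omega
  · exact Finset.disjoint_of_subset_right (Finset.erase_subset _ _) hd
  · rw [Finset.card_erase_of_mem he, hXc]

theorem hasClique_three_iff {N : ℕ} (A : Finset (Fin N × Fin N)) :
    HasClique 3 A ↔ ∃ a b c : Fin N, a < b ∧ b < c ∧ (a, b) ∈ A ∧ (a, c) ∈ A ∧ (b, c) ∈ A := by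
  constructor
  · rintro ⟨S, hS, hS'⟩
    obtain ⟨x, y, z, hxy, hxz, hyz, rfl⟩ := Finset.card_eq_three.mp hS
    have key : ∀ i j : Fin N, i ∈ ({x, y, z} : Finset (Fin N)) → j ∈ ({x, y, z} : Finset (Fin N)) →
        i < j → (i, j) ∈ A := fun i j hi hj hij => hS' i hi j hj hij
    have hx : x ∈ ({x, y, z} : Finset (Fin N)) := by simp
    have hy : y ∈ ({x, y, z} : Finset (Fin N)) := by simp
    have hz : z ∈ ({x, y, z} : Finset (Fin N)) := by simp
    rcases lt_or_gt_of_ne hxy with h1 | h1 <;> rcases lt_or_gt_of_ne hxz with h2 | h2 <;>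
      rcases lt_or_gt_of_ne hyz with h3 | h3
    · exact ⟨x, y, z, h1, h3, key _ _ hx hy h1, key _ _ hx hz h2, key _ _ hy hz h3⟩
    · exact ⟨x, z, y, h2, h3, key _ _ hx hz h2, key _ _ hx hy h1, key _ _ hz hy h3⟩
    · exact absurd (h1.trans h3) (not_lt.mpr h2.le)
    · exact ⟨z, x, y, h2, h1, key _ _ hz hx h2, key _ _ hz hy h3, key _ _ hx hy h1⟩
    · exact ⟨y, x, z, h1, h2, key _ _ hy hx h1, key _ _ hy hz h3, key _ _ hx hz h2⟩
    · exact absurd (h3.trans h1) (not_lt.mpr h2.le)
    · exact ⟨y, z, x, h3, h2, key _ _ hy hz h3, key _ _ hy hx h1, key _ _ hz hx h2⟩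
    · exact ⟨z, y, x, h3, h1, key _ _ hz hy h3, key _ _ hz hx h2, key _ _ hy hx h1⟩
  · rintro ⟨a, b, c, hab, hbc, h1, h2, h3⟩
    refine ⟨{a, b, c}, ?_, ?_⟩
    · rw [Finset.card_eq_three]
      exact ⟨a, b, c, hab.ne, (hab.trans hbc).ne, hbc.ne, rfl⟩
    · intro i hi j hj hij
      simp only [Finset.mem_insert, Finset.mem_singleton] at hi hj
      rcases hi with rfl | rfl | rfl <;> rcases hj with rfl | rfl | rfl
      · exact absurd hij (lt_irrefl _)
      · exact h1
      · exact h2
      · exact absurd hij (not_lt.mpr hab.le)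
      · exact absurd hij (lt_irrefl _)
      · exact h3
      · exact absurd hij (not_lt.mpr (hab.trans hbc).le)
      · exact absurd hij (not_lt.mpr hbc.le)
      · exact absurd hij (lt_irrefl _)

/-- The triangles of `K_5`, as lists of vertices. -/
def tris5 : List (Fin 5 × Fin 5 × Fin 5) :=
  [(0,1,2),(0,1,3),(0,1,4),(0,2,3),(0,2,4),(0,3,4),(1,2,3),(1,2,4),(1,3,4),(2,3,4)]

theorem mem_tris5 : ∀ a b c : Fin 5, (a, b, c) ∈ tris5 ↔ (a < b ∧ b < c) := by decide

def tris4 : List (Fin 4 × Fin 4 × Fin 4) := [(0,1,2),(0,1,3),(0,2,3),(1,2,3)]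

def t4 (A : Finset (Fin 4 × Fin 4)) : Bool :=
  tris4.any fun p => decide ((p.1, p.2.1) ∈ A) && decide ((p.1, p.2.2) ∈ A) &&
    decide ((p.2.1, p.2.2) ∈ A)

theorem mem_tris4 : ∀ a b c : Fin 4, (a, b, c) ∈ tris4 ↔ (a < b ∧ b < c) := by decide

theorem t4_iff (A : Finset (Fin 4 × Fin 4)) : t4 A = true ↔ HasClique 3 A := by
  rw [hasClique_three_iff, t4, List.any_eq_true]
  constructor
  · rintro ⟨⟨a, b, c⟩, hp, h⟩
    simp only [Bool.and_eq_true, decide_eq_true_eq] at h
    obtain ⟨hab, hbc⟩ := (mem_tris4 a b c).1 hp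
    exact ⟨a, b, c, hab, hbc, h.1.1, h.1.2, h.2⟩
  · rintro ⟨a, b, c, hab, hbc, h1, h2, h3⟩
    refine ⟨(a, b, c), (mem_tris4 a b c).2 ⟨hab, hbc⟩, ?_⟩
    simp [h1, h2, h3]

def e5 : Finset (Fin 5 × Fin 5) :=
  {(0,1),(0,2),(0,3),(0,4),(1,2),(1,3),(1,4),(2,3),(2,4),(3,4)}

def e4 : Finset (Fin 4 × Fin 4) := {(0,1),(0,2),(0,3),(1,2),(1,3),(2,3)}

theorem edges5 : edges 5 = e5 := by decide

theorem edges4 : edges 4 = e4 := by decide

theorem ev4a : ev t4 6 e4 ∅ true = false := by decide +kernel

theorem ev4b : ev t4 6 e4 ∅ false = false := by decide +kernel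

theorem not_first4 : ¬ FirstForces 4 3 := by
  have hc : (edges 4).card = 6 := by rw [edges4]; decide
  unfold FirstForces
  rw [hc, edges4]
  intro h
  have := (ev_iff (hasClique_mono 3) t4 t4_iff 6 e4 ∅ true (by decide)).2 h
  rw [ev4a] at this
  exact Bool.noConfusion this

theorem not_second4 : ¬ SecondForces 4 3 := by
  have hc : (edges 4).card = 6 := by rw [edges4]; decide
  unfold SecondForces
  rw [hc, edges4]
  intro h
  have := (ev_iff (hasClique_mono 3) t4 t4_iff 6 e4 ∅ false (by decide)).2 h
  rw [ev4b] at this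
  exact Bool.noConfusion this

/-- The board `K_5` and one more element `(0, 0)`, which stands for an extra edge. -/
def e5d : Finset (Fin 5 × Fin 5) :=
  {(0,0),(0,1),(0,2),(0,3),(0,4),(1,2),(1,3),(1,4),(2,3),(2,4),(3,4)}

/-- The number of the bit of a pair. -/
def idx (e : Fin 5 × Fin 5) : ℕ := 5 * e.1.val + e.2.val

theorem idx_inj {e e' : Fin 5 × Fin 5} (h : idx e = idx e') : e = e' := by
  obtain ⟨a, b⟩ := e
  obtain ⟨a', b'⟩ := e'
  simp only [idx] at h
  have := b.isLt
  have := b'.isLt
  ext <;> simp only <;> omega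

/-- The set coded by a number. -/
def dec (m : ℕ) : Finset (Fin 5 × Fin 5) := e5d.filter fun e => m.testBit (idx e) = true

theorem mem_dec (m : ℕ) (e : Fin 5 × Fin 5) : e ∈ dec m ↔ e ∈ e5d ∧ m.testBit (idx e) = true := by
  simp [dec]

theorem dec_or (m : ℕ) (e : Fin 5 × Fin 5) (he : e ∈ e5d) :
    dec (m ||| 2 ^ idx e) = insert e (dec m) := by
  ext e'
  rw [mem_dec, Finset.mem_insert, mem_dec, Nat.testBit_or, Nat.testBit_two_pow, Bool.or_eq_true,
    decide_eq_true_eq]
  constructor
  · rintro ⟨h1, h2 | h2⟩
    · exact Or.inr ⟨h1, h2⟩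
    · exact Or.inl (idx_inj h2.symm)
  · rintro (rfl | ⟨h1, h2⟩)
    · exact ⟨he, Or.inr rfl⟩
    · exact ⟨h1, Or.inl h2⟩

theorem dec_xor (m : ℕ) (e : Fin 5 × Fin 5) (hm : m.testBit (idx e) = true) :
    dec (m ^^^ 2 ^ idx e) = (dec m).erase e := by
  ext e'
  rw [mem_dec, Finset.mem_erase, mem_dec, Nat.testBit_xor, Nat.testBit_two_pow]
  by_cases h : e' = e
  · subst h
    simp [hm]
  · have : idx e ≠ idx e' := fun hh => h (idx_inj hh.symm)
    simp [this, h]

/-- The edges of `K_5` with the masks of the edges touching them. -/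
def l5t : List ((Fin 5 × Fin 5) × ℕ) :=
  [((0,1),926), ((0,2),24734), ((0,3),532766), ((0,4),541214), ((1,2),25478), ((1,3),533386),
    ((1,4),541586), ((2,3),549260), ((2,4),549524), ((3,4),549656)]

/-- The order of the answers: the extra edge, then the edges touching no, one, several edges of
the opponent. -/
def cand (m : ℕ) : List (Fin 5 × Fin 5) :=
  (0, 0) :: (((l5t.filter fun p => (m &&& p.2) == 0) ++
    ((l5t.filter fun p => !((m &&& p.2) == 0) && (((m &&& p.2) &&& ((m &&& p.2) - 1)) == 0)) ++
      (l5t.filter fun p => !(((m &&& p.2) &&& ((m &&& p.2) - 1)) == 0)))).map Prod.fst)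

theorem l5t_mem : ∀ p ∈ l5t, p.1 ∈ e5d := by decide +kernel

theorem cand_mem (m : ℕ) (e : Fin 5 × Fin 5) (he : e ∈ cand m) : e ∈ e5d := by
  rw [cand, List.mem_cons] at he
  rcases he with rfl | he
  · exact Finset.mem_insert_self _ _
  · obtain ⟨p, hp, rfl⟩ := List.mem_map.mp he
    refine l5t_mem p ?_
    rw [List.mem_append, List.mem_append] at hp
    rcases hp with hp | hp | hp <;> exact List.mem_of_mem_filter hp

/-- The list of all pairs of `e5d`. -/
def l5d : List (Fin 5 × Fin 5) :=
  [(0,0),(0,1),(0,2),(0,3),(0,4),(1,2),(1,3),(1,4),(2,3),(2,4),(3,4)]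

theorem mem_l5d : ∀ e, e ∈ l5d ↔ e ∈ e5d := by decide

/-- All pairs of `e5d`; with an edge, the pairs of edges that form a triangle with it. -/
def l5c : List ((Fin 5 × Fin 5) × List ((Fin 5 × Fin 5) × (Fin 5 × Fin 5))) :=
  [((0,0), []),
    ((0,1), [((0,2),(1,2)), ((0,3),(1,3)), ((0,4),(1,4))]),
    ((0,2), [((0,1),(1,2)), ((0,3),(2,3)), ((0,4),(2,4))]),
    ((0,3), [((0,1),(1,3)), ((0,2),(2,3)), ((0,4),(3,4))]),
    ((0,4), [((0,1),(1,4)), ((0,2),(2,4)), ((0,3),(3,4))]),
    ((1,2), [((0,1),(0,2)), ((1,3),(2,3)), ((1,4),(2,4))]),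
    ((1,3), [((0,1),(0,3)), ((1,2),(2,3)), ((1,4),(3,4))]),
    ((1,4), [((0,1),(0,4)), ((1,2),(2,4)), ((1,3),(3,4))]),
    ((2,3), [((0,2),(0,3)), ((1,2),(1,3)), ((2,4),(3,4))]),
    ((2,4), [((0,2),(0,4)), ((1,2),(1,4)), ((2,3),(3,4))]),
    ((3,4), [((0,3),(0,4)), ((1,3),(1,4)), ((2,3),(2,4))])]

theorem mem_l5c' : ∀ e ∈ l5d, ∃ x ∈ l5c, x.1 = e := by decide

theorem mem_l5c (e : Fin 5 × Fin 5) (he : e ∈ l5d) : ∃ l, (e, l) ∈ l5c := by
  obtain ⟨x, hx, rfl⟩ := mem_l5c' e he
  exact ⟨x.2, hx⟩

/-- The three pairs form a triangle. -/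
def isTri (e f g : Fin 5 × Fin 5) : Prop :=
  ∃ p ∈ tris5, (p.1, p.2.1) ∈ [e, f, g] ∧ (p.1, p.2.2) ∈ [e, f, g] ∧ (p.2.1, p.2.2) ∈ [e, f, g]

instance (e f g : Fin 5 × Fin 5) : Decidable (isTri e f g) := by unfold isTri; infer_instance

theorem l5c_tri : ∀ x ∈ l5c, ∀ y ∈ x.2, isTri x.1 y.1 y.2 ∧ x.1 ∈ e5d ∧ y.1 ∈ e5d ∧ y.2 ∈ e5d := by
  decide +kernel

theorem tri_sound (m : ℕ) (e f g : Fin 5 × Fin 5) (ht : isTri e f g) (he : e ∈ dec m)
    (hf : f ∈ dec m) (hg : g ∈ dec m) : HasClique 3 (dec m) := by
  obtain ⟨⟨a, b, c⟩, hp, h1, h2, h3⟩ := ht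
  obtain ⟨hab, hbc⟩ := (mem_tris5 a b c).1 hp
  have key : ∀ z ∈ [e, f, g], z ∈ dec m := by
    intro z hz
    simp only [List.mem_cons, List.not_mem_nil, or_false] at hz
    rcases hz with rfl | rfl | rfl <;> assumption
  rw [hasClique_three_iff]
  exact ⟨a, b, c, hab, hbc, key _ h1, key _ h2, key _ h3⟩

/-- Evaluation on codes. -/
def evm : ℕ → ℕ → ℕ → Bool → Bool
  | 0, _, _, _ => false
  | k + 1, fm, om, true =>
      (cand om).any fun e => fm.testBit (idx e) && evm k (fm ^^^ 2 ^ idx e) om false
  | k + 1, fm, om, false =>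
      l5c.all fun x => !(fm.testBit (idx x.1)) ||
        ((x.2.any fun y => om.testBit (idx y.1) && om.testBit (idx y.2)) ||
          evm k (fm ^^^ 2 ^ idx x.1) (om ||| 2 ^ idx x.1) true)

theorem evm_sound : ∀ (k fm om : ℕ) (b : Bool), (dec fm).card = k → evm k fm om b = true →
    Forces (HasClique (N := 5) 3) k (dec fm) (dec om) b := by
  intro k
  induction k with
  | zero => intro fm om b _ h; simp [evm] at h
  | succ k ih =>
    intro fm om b hc h
    cases b with
    | true =>
      simp only [evm, List.any_eq_true, Bool.and_eq_true] at h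
      obtain ⟨e, hc1, he, h⟩ := h
      have hm : e ∈ dec fm := (mem_dec _ _).2 ⟨cand_mem _ _ hc1, he⟩
      refine ⟨e, hm, ?_⟩
      rw [← dec_xor fm e he]
      refine ih _ _ _ ?_ h
      rw [dec_xor fm e he, Finset.card_erase_of_mem hm]; omega
    | false =>
      simp only [evm, List.all_eq_true, Bool.or_eq_true, Bool.not_eq_true', List.any_eq_true,
        Bool.and_eq_true] at h
      intro e hm
      obtain ⟨he5, he⟩ := (mem_dec _ _).1 hm
      obtain ⟨l, hl⟩ := mem_l5c e ((mem_l5d e).2 he5)
      have hcard : (dec (fm ^^^ 2 ^ idx e)).card = k := by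
        rw [dec_xor fm e he, Finset.card_erase_of_mem hm]; omega
      rw [← dec_xor fm e he, ← dec_or om e he5]
      rcases h (e, l) hl with h | ⟨y, hy, hf, hg⟩ | h
      · simp only at h
        rw [he] at h; exact absurd h (by decide)
      · obtain ⟨ht, -, hf5, hg5⟩ := l5c_tri _ hl y hy
        refine forces_of (hasClique_mono 3) k _ _ true hcard (tri_sound _ e y.1 y.2 ht ?_ ?_ ?_)
        · rw [dec_or om e he5]; exact Finset.mem_insert_self _ _
        · rw [dec_or om e he5]
          exact Finset.mem_insert_of_mem ((mem_dec _ _).2 ⟨hf5, hf⟩)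
        · rw [dec_or om e he5]
          exact Finset.mem_insert_of_mem ((mem_dec _ _).2 ⟨hg5, hg⟩)
      · exact ih _ _ _ hcard h

theorem ev_first : evm 10 549790 0 true = true := by decide +kernel

theorem ev_second : evm 10 549790 0 false = true := by decide +kernel

theorem ev_extra : evm 11 549791 0 false = true := by decide +kernel

theorem dec_zero : dec 0 = ∅ := by decide +kernel

theorem dec_e5 : dec 549790 = e5 := by decide +kernel

theorem dec_e5d : dec 549791 = e5d := by decide +kernel

theorem first5 : FirstForces 5 3 := by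
  have hc : (edges 5).card = 10 := by rw [edges5]; decide
  unfold FirstForces
  rw [hc, edges5]
  have := evm_sound 10 549790 0 true (by rw [dec_e5]; decide) ev_first
  rwa [dec_e5, dec_zero] at this

theorem second5 : SecondForces 5 3 := by
  have hc : (edges 5).card = 10 := by rw [edges5]; decide
  unfold SecondForces
  rw [hc, edges5]
  have := evm_sound 10 549790 0 false (by rw [dec_e5]; decide) ev_second
  rwa [dec_e5, dec_zero] at this

theorem forces5d : Forces (HasClique (N := 5) 3) 11 e5d ∅ false := by
  have := evm_sound 11 549791 0 false (by rw [dec_e5d]; decide) ev_extra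
  rwa [dec_e5d, dec_zero] at this

/-- The injection of `K_5` and the extra element into the board `K_N`, `N ≥ 6`: the extra element
goes to the edge `{0, 5}`. -/
def gg {N : ℕ} (h : 6 ≤ N) : (Fin 5 × Fin 5) ↪ (Fin N × Fin N) where
  toFun p := if p = (0, 0) then ((⟨0, by omega⟩ : Fin N), (⟨5, by omega⟩ : Fin N)) else
    (Fin.castLE (by omega) p.1, Fin.castLE (by omega) p.2)
  inj' := by
    intro p p' hp
    dsimp only at hp
    split_ifs at hp with h1 h2 h2
    · rw [h1, h2]
    · exfalso
      have h3 := congrArg (fun x : Fin N × Fin N => x.2.val) hp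
      have h4 := p'.2.isLt
      simp only [Fin.val_castLE] at h3
      omega
    · exfalso
      have h3 := congrArg (fun x : Fin N × Fin N => x.2.val) hp
      have h4 := p.2.isLt
      simp only [Fin.val_castLE] at h3
      omega
    · have h3 := congrArg (fun x : Fin N × Fin N => x.1.val) hp
      have h4 := congrArg (fun x : Fin N × Fin N => x.2.val) hp
      simp only [Fin.val_castLE] at h3 h4
      exact Prod.ext (Fin.ext h3) (Fin.ext h4)

theorem gg_apply {N : ℕ} (h : 6 ≤ N) (p : Fin 5 × Fin 5) (hp : p ≠ (0, 0)) :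
    gg h p = (Fin.castLE (by omega) p.1, Fin.castLE (by omega) p.2) := if_neg hp

theorem hasClique_gg {N : ℕ} (h : 6 ≤ N) (A : Finset (Fin 5 × Fin 5))
    (hA : HasClique 3 A) : HasClique 3 (A.map (gg h)) := by
  obtain ⟨S, hS, hS'⟩ := hA
  refine ⟨S.map (Fin.castLEEmb (by omega)), by rw [Finset.card_map, hS], ?_⟩
  intro i hi j hj hij
  obtain ⟨a, ha, rfl⟩ := Finset.mem_map.mp hi
  obtain ⟨b, hb, rfl⟩ := Finset.mem_map.mp hj
  have hab : a < b := by simpa using hij
  refine Finset.mem_map.mpr ⟨(a, b), hS' a ha b hb hab, ?_⟩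
  have hne : ((a, b) : Fin 5 × Fin 5) ≠ (0, 0) := by
    intro hh
    rw [Prod.mk.injEq] at hh
    rw [hh.1, hh.2] at hab
    exact lt_irrefl _ hab
  rw [gg_apply h _ hne]
  rfl

theorem e5d_lt : ∀ p ∈ e5d, p ≠ (0, 0) → p.1 < p.2 := by decide

theorem e5d_sub {N : ℕ} (h : 6 ≤ N) : e5d.map (gg h) ⊆ edges N := by
  intro e he
  obtain ⟨p, hp, rfl⟩ := Finset.mem_map.mp he
  simp only [edges, Finset.mem_filter, Finset.mem_univ, true_and]
  by_cases h0 : p = (0, 0)
  · have : gg h p = ((⟨0, by omega⟩ : Fin N), (⟨5, by omega⟩ : Fin N)) := if_pos h0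
    rw [this]
    exact Fin.mk_lt_mk.mpr (by norm_num)
  · rw [gg_apply h p h0]
    exact e5d_lt p hp h0

theorem second_odd {N : ℕ} (h : 6 ≤ N) (hodd : ¬ Even (N.choose 2 - (5 : ℕ).choose 2)) :
    SecondForces N 3 := by
  have tr := transport (gg h) (HasClique (N := N) 3) (hasClique_gg h) 11 e5d ∅ false forces5d
  rw [Finset.map_empty] at tr
  have hsub := e5d_sub h
  have hcF : (e5d.map (gg h)).card = 11 := by rw [Finset.card_map]; decide
  have hU : e5d.map (gg h) ∪ (edges N \ e5d.map (gg h)) = edges N :=
    Finset.union_sdiff_of_subset hsub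
  have h6 : (6 : ℕ).choose 2 = 15 := by decide
  have h5 : (5 : ℕ).choose 2 = 10 := by decide
  have hge : (6 : ℕ).choose 2 ≤ N.choose 2 := Nat.choose_le_choose 2 h
  have hXc : (edges N \ e5d.map (gg h)).card = N.choose 2 - 11 := by
    rw [Finset.card_sdiff_of_subset hsub, hcF, card_edges]
  have hev : Even (N.choose 2 - 11) := by
    rw [Nat.not_even_iff_odd] at hodd
    obtain ⟨r, hr⟩ := hodd
    exact ⟨r, by omega⟩
  have := add_even (hasClique_mono (N := N) 3) (edges N).card 11 (N.choose 2 - 11)
    (by rw [card_edges]; omega) hev (e5d.map (gg h)) (edges N \ e5d.map (gg h)) ∅ ∅ false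
    Finset.disjoint_sdiff hcF hXc (Finset.Subset.refl _) tr
  rwa [hU] at this

/-- Outcome of `[K_N, K_3; -]`: for every `N ≥ 5` each of the two players can force the other one
to own a triangle at the end; and `ww(K_3; -) = 5`. -/
theorem result :
    (∀ N : ℕ, 5 ≤ N → FirstForces N 3 ∧ SecondForces N 3) ∧
    IsLeast {n : ℕ | Admissible 3 n} 5 := by
  have hboth : ∀ N : ℕ, 5 ≤ N → FirstForces N 3 ∧ SecondForces N 3 := by
    intro N hN
    by_cases hev : Even (N.choose 2 - (5 : ℕ).choose 2)
    · exact ⟨(extend 3 5 N hN).1 hev first5, (extend 3 5 N hN).2.1 hev second5⟩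
    · refine ⟨(extend 3 5 N hN).2.2 hev second5, second_odd ?_ hev⟩
      rcases Nat.lt_or_ge N 6 with h | h
      · have : N = 5 := by omega
        subst this
        exact absurd (by rw [Nat.sub_self]; exact ⟨0, rfl⟩) hev
      · exact h
  refine ⟨hboth, ?_, ?_⟩
  · intro N hN _
    exact Or.inl (hboth N hN).1
  · intro n hn
    by_contra hlt
    rcases hn 4 (by omega) (by norm_num) with h | h
    · exact not_first4 h
    · exact not_second4 h

end Pool.Agent.Results.MP_c7fbc5_co.TriangleOutcomes
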